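import Pool.Agent.KS6_65.CB.Main

set_option autoImplicit false
open scoped LinearAlgebra.Projectivization

namespace Pool.Agent.Results.MP_23142e_ag.EveryDimension

open Pool.Agent.KS6_65.CB MvPolynomial

open Classical in
theorem cb_grid (k d : ℕ) (hd : 1 ≤ d) :
    CayleyBacharach (2 * d - 1) (Finset.univ.image (pt k d)) := by
  intro p hp f hf hq
  obtain ⟨x, -, rfl⟩ := Finset.mem_image.1 hp
  have h6 := cb k d hd hf
  rw [Finset.sum_eq_single x (fun y _ hy => by
    rw [(eval_pt k d hf y).1 (hq _ (Finset.mem_image_of_mem _ (Finset.mem_univ _))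
      ((pt_inj k d).ne hy)), mul_zero]) (by simp)] at h6
  exact (eval_pt k d hf x).2
    ((mul_eq_zero.1 h6).resolve_left (mul_ne_zero (cf_ne d _) (cf_ne d _)))

/-- **Q1 fails in every projective space for every `d ≥ 3`.** For all `n ≥ 2` and `d ≥ 3` there is a
set `S` of `(d + 1) ^ 2` points of `ℙⁿ` which satisfies the Cayley–Bacharach condition with respect to
forms of degree `m = 2 d - 1`, and `|S| = ((2 d + 5) m + 9) / 4 ≤ (d + 3) / 2 * m + 1`, but `S` is
not contained in any curve of degree at most `d` (reducible, non-reduced and even with embedded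
points). -/
theorem result (n d : ℕ) (hn : 2 ≤ n) (hd : 3 ≤ d) :
    ∃ S : Finset (ℙ ℂ (Fin (n + 1) → ℂ)),
      CayleyBacharach (2 * d - 1) S ∧ S.card = (d + 1) ^ 2 ∧
      4 * S.card = (2 * d + 5) * (2 * d - 1) + 9 ∧
      (S.card : ℝ) ≤ ((d : ℝ) + 3) / 2 * ((2 * d - 1 : ℕ) : ℝ) + 1 ∧ ¬ OnCurve d S := by
  classical
  obtain ⟨k, rfl⟩ : ∃ k, n = k + 2 := ⟨n - 2, by omega⟩
  have hc : (Finset.univ.image (pt k d)).card = (d + 1) ^ 2 := by
    rw [Finset.card_image_of_injective _ (pt_inj k d), Finset.card_univ, Fintype.card_prod,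
      Fintype.card_fin, sq]
  obtain ⟨c, rfl⟩ : ∃ c, d = c + 3 := ⟨d - 3, by omega⟩
  have e : 2 * (c + 3) - 1 = 2 * c + 5 := by omega
  refine ⟨Finset.univ.image (pt k (c + 3)), ?_, ?_, ?_, ?_, ?_⟩
  · convert cb_grid k (c + 3) (by omega)
  · convert hc
  · have : (Finset.univ.image (pt k (c + 3))).card = (c + 3 + 1) ^ 2 := by convert hc
    rw [this, e]; ring
  · have : (Finset.univ.image (pt k (c + 3))).card = (c + 3 + 1) ^ 2 := by convert hc
    rw [this, e]
    push_cast
    nlinarith [Nat.cast_nonneg (α := ℝ) c]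
  · convert not_onCurve k (c + 3)

end Pool.Agent.Results.MP_23142e_ag.EveryDimension
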